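import Pool.Agent.H66.FA.T

/-!
# Left-invariant Finsler metrics on almost abelian groups: the theorem, with a weaker hypothesis
-/

set_option autoImplicit false

open Matrix

namespace Pool.Agent.H66.FA

open Pool.Agent.H63.Fins MeasureTheory Filter Topology

/-- The derivative of the norm along an orbit. -/
theorem orbit_deriv {m : ℕ} {B : V (m + 1) →L[ℝ] V (m + 1)}
    {E : ℝ → V (m + 1) →L[ℝ] V (m + 1)} (hE : IsE B E) {L : V (m + 1) → ℝ} (hL : IsML L)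
    (h1 : T_REG) (v : V (m + 1)) (hv : v ≠ 0) (t : ℝ) :
    HasDerivAt (fun t => L (E t v)) (d1 L (E t v) (B (E t v))) t := by
  have hne : E t v ≠ 0 := by
    intro h
    apply hv
    have := hE.add (-t) t v
    rw [h, map_zero, neg_add_cancel, hE.zero] at this
    exact this
  exact ((h1 (m + 1) L hL).2.2.2.2.2.2 (E t v) hne).1.comp_hasDerivAt t (hE.der t v)

theorem rw2 (h1 : T_REG) (h2 : T_RIC) (h3 : T_ML) (h4 : T_ISR) (h5 : T_ACC) (m : ℕ)
    (B : V (m + 1) →L[ℝ] V (m + 1)) (E : ℝ → V (m + 1) →L[ℝ] V (m + 1))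
    (F : V (m + 1) → V (m + 1) → ℝ) (hE : IsE B E) (hF : IsFinsler Set.univ F)
    (hFE : ∀ x y, F x y = F 0 (E (-x 0) y))
    (hR : ∀ v : V (m + 1), v ≠ 0 → v 0 = 0 → d1 (fun y => F 0 y ^ 2 / 2) v (B v) = 0 →
      ricci F 0 v < 0) : Acc B fun y => F 0 y ^ 2 / 2 := by
  have hL : IsML fun y => F 0 y ^ 2 / 2 := (h3 (m + 1) F hF 0).1
  refine h5 m B E _ hL hE fun v hv hv0 hc => ?_
  have hIsR := (h4 m B E F hE hF hFE).1
  have hd : ∀ t : ℝ, HasDerivAt (fun t => F 0 (E t v) ^ 2 / 2)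
      (d1 (fun y => F 0 y ^ 2 / 2) (E t v) (B (E t v))) t :=
    fun t => orbit_deriv hE hL h1 v hv t
  -- the derivative of `s ↦ L (E (-s) v)`
  have hd' : ∀ s : ℝ, HasDerivAt (fun s => F 0 (E (-s) v) ^ 2 / 2)
      (-d1 (fun y => F 0 y ^ 2 / 2) (E (-s) v) (B (E (-s) v))) s := by
    intro s
    have h := (hd (-s)).comp s (hasDerivAt_neg s)
    rw [mul_neg_one] at h
    exact h
  have e1 : deriv (fun s => F 0 (E (-s) v) ^ 2 / 2) 0 = 0 := by
    rw [(hd' 0).deriv, neg_zero, hE.zero, hc, neg_zero]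
  have key := h2 m F _ hIsR v hv hv0 e1 (hR v hv hv0 hc)
  have e2 : (deriv fun s => F 0 (E (-s) v) ^ 2 / 2) =
      fun s => -(deriv (fun t => F 0 (E t v) ^ 2 / 2) (-s)) := by
    funext s
    rw [(hd' s).deriv, (hd (-s)).deriv]
  rw [e2] at key
  have e3 : deriv (fun s => -(deriv (fun t => F 0 (E t v) ^ 2 / 2) (-s))) 0 =
      deriv (deriv fun t => F 0 (E t v) ^ 2 / 2) 0 := by
    rw [deriv.fun_neg, deriv_comp_neg, neg_zero, neg_neg]
  rw [e3] at key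
  exact key

/-- The theorem with the weaker hypothesis on the Ricci scalar. -/
def T_FIN2 : Prop := ∀ (m : ℕ) (A : Matrix (Fin m) (Fin m) ℝ) (F : V (m + 1) → V (m + 1) → ℝ),
  0 < m → Expanding A → IsFinsler Set.univ F → IsLeftInvariant A F →
  (∀ v : V (m + 1), v ≠ 0 → v 0 = 0 →
    deriv (fun t : ℝ => F 0 (Fin.cons 0 (NormedSpace.exp (t • A) *ᵥ Fin.tail v))) 0 = 0 →
    ricci F 0 v < 0) →
  (∀ x y, y ≠ 0 → HasSCurvature Set.univ F x y 0) → IsRiemannian Set.univ F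

theorem pf_FIN2 (hREG : T_REG) (hRIC : T_RIC) (hISR : T_ISR) (hACC : T_ACC) (hEUL : T_EUL)
    (hLIN : T_LIN) (hEXP : T_EXP) (hML : T_ML) (hSPD : T_SPD)
    (hALL : T_ALL) (hDEI : T_DEI) : T_FIN2 := by
  intro m A F hm hA hF hinv hRic hS
  obtain ⟨B, E, hE, hEt⟩ := hEXP m A hA
  have hFE : ∀ x y, F x y = F 0 (E (-x 0) y) := hLIN m A E F hEt hinv
  have hL : IsML fun y => F 0 y ^ 2 / 2 := (hML (m + 1) F hF 0).1
  have hSZ : SZ B fun y => F 0 y ^ 2 / 2 :=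
    hSPD m B E F hE hF hFE fun y hy => hS 0 y hy
  have hAcc : Acc B fun y => F 0 y ^ 2 / 2 := by
    refine rw2 hREG hRIC hML hISR hACC m B E F hE hF hFE fun v hv hv0 hc => hRic v hv hv0 ?_
    -- the derivative of `F` along the orbit
    have e1 : (fun t : ℝ => F 0 (Fin.cons 0 (NormedSpace.exp (t • A) *ᵥ Fin.tail v))) =
        fun t => F 0 (E t v) := by
      funext t
      rw [hEt t v, hv0]
    rw [e1]
    have hpos : 0 < F 0 v := by
      have h := (hEUL (m + 1) _ hL v hv).2.2.2.1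
      have h0 := hF.nonneg 0 (Set.mem_univ _) v
      rcases h0.lt_or_eq with h' | h'
      · exact h'
      · rw [← h'] at h
        norm_num at h
    have hd := orbit_deriv hE hL hREG v hv 0
    rw [hE.zero, hc] at hd
    -- F = sqrt (2 L)
    have e2 : (fun t => F 0 (E t v)) = fun t => Real.sqrt (2 * (F 0 (E t v) ^ 2 / 2)) := by
      funext t
      rw [mul_div_cancel₀ _ (two_ne_zero), Real.sqrt_sq (hF.nonneg 0 (Set.mem_univ _) _)]
    rw [e2]
    have hd2 : HasDerivAt (fun t => 2 * (F 0 (E t v) ^ 2 / 2)) (2 * 0) 0 := hd.const_mul 2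
    have hne : (2 * (F 0 (E 0 v) ^ 2 / 2)) ≠ 0 := by
      rw [hE.zero]
      positivity
    have := (hd2.sqrt hne).deriv
    rw [this]
    simp
  obtain ⟨d, hd⟩ := hALL m B E _ hm hL hE hAcc hSZ
  obtain ⟨Q, hQ⟩ := hDEI (m + 1) _ d (by omega) hL hd
  have hmat : ∀ x : V (m + 1), ∃ M : Matrix (Fin (m + 1)) (Fin (m + 1)) ℝ,
      ∀ y, E (-x 0) y = M *ᵥ y := by
    intro x
    refine ⟨LinearMap.toMatrix' (E (-x 0) : V (m + 1) →ₗ[ℝ] V (m + 1)), fun y => ?_⟩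
    rw [← Matrix.toLin'_apply, Matrix.toLin'_toMatrix']
    rfl
  choose M hM using hmat
  refine ⟨fun x => (M x)ᵀ * Q * M x, fun x _ y => ?_⟩
  have h1 : F x y ^ 2 = y ⬝ᵥ (((M x)ᵀ * Q * M x) *ᵥ y) := by
    rw [hFE x y]
    have h2 := hQ (E (-x 0) y)
    have h3 : F 0 (E (-x 0) y) ^ 2 = E (-x 0) y ⬝ᵥ (Q *ᵥ E (-x 0) y) := by linarith
    rw [h3, hM x y, Matrix.mul_assoc, ← Matrix.mulVec_mulVec, ← Matrix.mulVec_mulVec,
      Matrix.dotProduct_mulVec y, Matrix.vecMul_transpose]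
  rw [← h1, Real.sqrt_sq (hF.nonneg x (Set.mem_univ x) y)]

end Pool.Agent.H66.FA
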