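import Pool.Agent.H13.FAB.DIV
import Pool.Agent.H14.FA.EUL
import Pool.Agent.H14.FA.REG
import Pool.Agent.H25.FA.LOW
import Pool.Agent.H25.FA.SUB
import Pool.Agent.H33.FA.CPT
import Pool.Agent.H33.FA.CVX
import Pool.Agent.H35.FAB.MOM
import Pool.Agent.H36.FA.DEI
import Pool.Agent.H36.FA.RA
import Pool.Agent.H36.FA.SPR
import Pool.Agent.H37.FA.RCS
import Pool.Agent.H41.FA.INJ
import Pool.Agent.H43.FA.ALL
import Pool.Agent.H43.FA.PDF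
import Pool.Agent.H43.FA.RIC
import Pool.Agent.H44.FAB.GAP
import Pool.Agent.H46.FAO.ODE
import Pool.Agent.H5.FA.ConD
import Pool.Agent.H53.FA.DST
import Pool.Agent.H53.FA.RB
import Pool.Agent.H55.FA.RFL
import Pool.Agent.H57.FA.INV
import Pool.Agent.H57.FA.LIN
import Pool.Agent.H60.FAB.ML
import Pool.Agent.H60.FAB.POS
import Pool.Agent.H60.FAB.SPD
import Pool.Agent.H60.FAB.XIS
import Pool.Agent.H69.FA.ACC
import Pool.Agent.H7.FA.DEC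
import Pool.Agent.H7.FA.JAC
import Pool.Agent.H7.FA.SYM
import Pool.Agent.H73.FA.VOL
import Pool.Agent.H79.FA.STA
import Pool.Agent.H80.FA.RC
import Pool.Agent.H81.FAB.INT
import Pool.Agent.H81.FAB.LIM
import Pool.Agent.H85.FA.ISR
import Pool.Agent.H85.FA.RD
import Pool.Agent.H86.FAB.TRC
import Pool.Agent.H89.FAB.EXP
import Pool.Agent.H66.FA.FIN2

/-!
# Left-invariant Finsler metrics on almost abelian groups: assembly
-/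

set_option autoImplicit false

namespace Pool.Agent.H66.FA

theorem x_EUL : T_EUL :=
  Pool.Agent.H14.FA.pf_EUL 

theorem x_REG : T_REG :=
  Pool.Agent.H14.FA.pf_REG x_EUL

theorem x_ACC : T_ACC :=
  Pool.Agent.H69.FA.pf_ACC x_REG

theorem x_INJ : T_INJ :=
  Pool.Agent.H41.FA.pf_INJ x_EUL x_REG

theorem x_CPT : T_CPT :=
  Pool.Agent.H33.FA.pf_CPT x_EUL x_REG

theorem x_XIS : T_XIS :=
  Pool.Agent.H60.FAB.pf_XIS x_EUL x_REG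

theorem x_ODE : T_ODE :=
  Pool.Agent.H46.FAO.pf_ODE x_EUL x_REG x_CPT

theorem x_MOM : T_MOM :=
  Pool.Agent.H35.FAB.pf_MOM x_EUL x_REG

theorem x_CVX : T_CVX :=
  Pool.Agent.H33.FA.pf_CVX x_EUL x_REG

theorem x_DEC : T_DEC :=
  Pool.Agent.H7.FA.pf_DEC x_REG

theorem x_GAP : T_GAP :=
  Pool.Agent.H44.FAB.pf_GAP x_EUL x_REG x_CPT x_DEC

theorem x_POS : T_POS :=
  Pool.Agent.H60.FAB.pf_POS x_EUL x_REG x_CVX x_MOM x_DEC

theorem x_STA : T_STA :=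
  Pool.Agent.H79.FA.pf_STA x_EUL x_REG x_CPT x_MOM

theorem x_LOW : T_LOW :=
  Pool.Agent.H25.FA.pf_LOW x_EUL x_REG x_CVX x_MOM x_GAP x_POS x_STA

theorem x_LIM : T_LIM :=
  Pool.Agent.H81.FAB.pf_LIM x_EUL x_REG x_CPT x_XIS x_ODE x_MOM x_LOW

theorem x_CON : T_CON :=
  Pool.Agent.H5.FA.pf_CON x_EUL x_INJ x_LIM

theorem x_RFL : T_RFL :=
  Pool.Agent.H55.FA.pf_RFL x_EUL x_REG

theorem x_ALL : T_ALL :=
  Pool.Agent.H43.FA.pf_ALL x_EUL x_REG x_CON x_RFL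

theorem x_INV : T_INV :=
  Pool.Agent.H57.FA.pf_INV 

theorem x_SYM : T_SYM :=
  Pool.Agent.H7.FA.pf_SYM x_REG

theorem x_JAC : T_JAC :=
  Pool.Agent.H7.FA.pf_JAC 

theorem x_TRC : T_TRC :=
  Pool.Agent.H86.FAB.TRC.pf_TRC x_REG x_JAC

theorem x_SUB : T_SUB :=
  Pool.Agent.H25.FA.pf_SUB x_EUL x_REG x_INV x_SYM x_TRC

theorem x_DIV : T_DIV :=
  Pool.Agent.H13.FAB.pf_DIV x_REG x_INV x_SYM x_TRC

theorem x_INT : T_INT :=
  Pool.Agent.H81.FAB.pf_INT x_EUL x_REG x_CPT x_DIV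

theorem x_DEI : T_DEI :=
  Pool.Agent.H36.FA.pf_DEI x_EUL x_REG x_CPT x_SUB x_INT

theorem x_PDF : T_PDF :=
  Pool.Agent.H43.FA.pf_PDF 

theorem x_ML : T_ML :=
  Pool.Agent.H60.FAB.pf_ML x_PDF

theorem x_ISR : T_ISR :=
  Pool.Agent.H85.FA.pf_ISR x_ML x_REG

theorem x_VOL : T_VOL :=
  Pool.Agent.H73.FA.pf_VOL x_ML x_CPT

theorem x_DST : T_DST :=
  Pool.Agent.H53.FA.pf_DST x_ML x_REG x_ISR x_VOL

theorem x_EXP : T_EXP :=
  Pool.Agent.H89.FAB.pf_EXP 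

theorem x_LIN : T_LIN :=
  Pool.Agent.H57.FA.pf_LIN 

theorem x_RA : T_RA :=
  Pool.Agent.H36.FA.pf_RA 

theorem x_RB : T_RB :=
  Pool.Agent.H53.FA.pf_RB x_PDF x_RA

theorem x_RC : T_RC :=
  Pool.Agent.H80.FA.pf_RC x_PDF x_RA

theorem x_RCS : T_RCS :=
  Pool.Agent.H37.FA.pf_RCS 

theorem x_RD : T_RD :=
  Pool.Agent.H85.FA.pf_RD x_RA

theorem x_RIC : T_RIC :=
  Pool.Agent.H43.FA.pf_RIC x_RB x_RC x_RD x_RCS

theorem x_SPR : T_SPR :=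
  Pool.Agent.H36.FA.pf_SPR x_PDF x_RA x_ML x_EUL x_REG x_ISR

theorem x_SPD : T_SPD :=
  Pool.Agent.H60.FAB.pf_SPD x_EUL x_REG x_ML x_DST x_SPR

theorem x_FIN2 : T_FIN2 :=
  pf_FIN2 x_REG x_RIC x_ISR x_ACC x_EUL x_LIN x_EXP x_ML x_SPD x_ALL x_DEI

end Pool.Agent.H66.FA
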