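import Pool.Agent.H66.FA.Stmt

/-!
# Left-invariant Finsler metrics on almost abelian groups: definitions for the proof
-/

set_option autoImplicit false

open Matrix

namespace Pool.Agent.H66.FA

open Pool.Agent.H63.Fins MeasureTheory Filter Topology

/-- The first derivative `dL(y)(u)`. -/
noncomputable def d1 {n : ℕ} (L : V n → ℝ) (y u : V n) : ℝ := fderiv ℝ L y u

/-- The second derivative `D²L(y)(u, v)`. -/
noncomputable def d2 {n : ℕ} (L : V n → ℝ) (y u v : V n) : ℝ := fderiv ℝ (fderiv ℝ L) y u v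

/-- The unit vector number `i`. -/
def ee {n : ℕ} (i : Fin n) : V n := Pi.single i 1

/-- The matrix of the second derivative. -/
noncomputable def gm {n : ℕ} (L : V n → ℝ) (y : V n) : Matrix (Fin n) (Fin n) ℝ :=
  fun i j => d2 L y (ee i) (ee j)

/-- The determinant of the second derivative. -/
noncomputable def DD {n : ℕ} (L : V n → ℝ) (y : V n) : ℝ := (gm L y).det

/-- Half the square of a Minkowski norm. -/
structure IsML {n : ℕ} (L : V n → ℝ) : Prop where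
  smooth : ContDiffOn ℝ (⊤ : ℕ∞) L {y | y ≠ 0}
  zero : L 0 = 0
  homog : ∀ (y : V n) (c : ℝ), 0 < c → L (c • y) = c ^ 2 * L y
  pos : ∀ y u : V n, y ≠ 0 → u ≠ 0 → 0 < d2 L y u u

/-- The one-parameter group `E(t) = exp(tB)`, where `B (y₀, y') = (0, A y')` and all eigenvalues of
`A` have positive real part. -/
structure IsE {m : ℕ} (B : V (m + 1) →L[ℝ] V (m + 1)) (E : ℝ → V (m + 1) →L[ℝ] V (m + 1)) :
    Prop where
  zero : ∀ y, E 0 y = y
  add : ∀ s t y, E (s + t) y = E s (E t y)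
  der : ∀ t y, HasDerivAt (fun t => E t y) (B (E t y)) t
  comm : ∀ t y, B (E t y) = E t (B y)
  smooth : ContDiff ℝ (⊤ : ℕ∞) fun p : ℝ × V (m + 1) => E p.1 p.2
  b0 : ∀ y, B y 0 = 0
  b1 : B (ee 0) = 0
  e0 : ∀ t y, E t y 0 = y 0
  lim : ∀ y : V (m + 1), y 0 = 0 → Tendsto (fun t => E (-t) y) atTop (𝓝 0)

/-- The S-curvature vanishes: `det g_y` is constant in the direction of the spray. -/
def SZ {m : ℕ} (B : V (m + 1) →L[ℝ] V (m + 1)) (L : V (m + 1) → ℝ) : Prop :=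
  ∀ y ξ : V (m + 1), y ≠ 0 → (∀ u, d2 L y ξ u = u 0 * d1 L y (B y) - y 0 * d1 L y (B u)) →
    fderiv ℝ (DD L) y ξ = 0

/-- The norm grows strictly along the orbits of `exp(tB)` in the hyperplane `y₀ = 0`. -/
def Acc {m : ℕ} (B : V (m + 1) →L[ℝ] V (m + 1)) (L : V (m + 1) → ℝ) : Prop :=
  ∀ v : V (m + 1), v ≠ 0 → v 0 = 0 → 0 < d1 L v (B v)

/-- `γ` is a trajectory on `(-1, T)`. -/
def IsTr {m : ℕ} (B : V (m + 1) →L[ℝ] V (m + 1)) (L : V (m + 1) → ℝ) (γ : ℝ → V (m + 1)) (T : ℝ) :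
    Prop :=
  ∀ t ∈ Set.Ioo (-1 : ℝ) T, γ t ≠ 0 ∧ ∃ ξ : V (m + 1), HasDerivAt γ ξ t ∧
    ∀ u, d2 L (γ t) ξ u = u 0 * d1 L (γ t) (B (γ t)) - γ t 0 * d1 L (γ t) (B u)

/-- The reflection `(y₀, y') ↦ (-y₀, y')`. -/
def rf {m : ℕ} (y : V (m + 1)) : V (m + 1) := fun i => if i = 0 then -y i else y i

/-- The directional derivative of a component of the inverse of the matrix of the second
derivative. -/
noncomputable def gi {n : ℕ} (L : V n → ℝ) (i j : Fin n) (y : V n) : ℝ := (gm L y)⁻¹ i j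

/-- The second derivative of the function `y ↦ D²L(y)(v, v)`. -/
noncomputable def hh {n : ℕ} (L : V n → ℝ) (v : V n) (i j : Fin n) (y : V n) : ℝ :=
  fderiv ℝ (fun z => fderiv ℝ (fun w => d2 L w v v) z (ee j)) y (ee i)

/-- `F²/2` at `(x, y)` is `Λ(x₀, y)`. -/
structure IsR {m : ℕ} (F : V (m + 1) → V (m + 1) → ℝ) (Λ : ℝ → V (m + 1) → ℝ) : Prop where
  eq : ∀ x y, F x y ^ 2 = 2 * Λ (x 0) y
  smooth : ContDiffOn ℝ (⊤ : ℕ∞) (fun p : ℝ × V (m + 1) => Λ p.1 p.2) {p | p.2 ≠ 0}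
  pos : ∀ x y, y ≠ 0 → (fund F x y).PosDef

/-- The derivative `∂²Λ/∂s∂yˡ` at `(0, v)`. -/
noncomputable def ta {m : ℕ} (Λ : ℝ → V (m + 1) → ℝ) (v : V (m + 1)) (l : Fin (m + 1)) : ℝ :=
  pdx 0 (pdy l fun x y => Λ (x 0) y) 0 v

end Pool.Agent.H66.FA
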