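import Pool.Agent.H66.FA.T

/-!
# Left-invariant Finsler metrics on almost abelian groups: row FIN
-/

set_option autoImplicit false

open Matrix

namespace Pool.Agent.H66.FA

open Pool.Agent.H63.Fins MeasureTheory Filter Topology

theorem pf_FIN (hLIN : T_LIN) (hEXP : T_EXP) (hML : T_ML) (hSPD : T_SPD) (hRW : T_RW)
    (hALL : T_ALL) (hDEI : T_DEI) : T_FIN := by
  intro m A F hm hA hF hinv hRic hS
  obtain ⟨B, E, hE, hEt⟩ := hEXP m A hA
  have hFE : ∀ x y, F x y = F 0 (E (-x 0) y) := hLIN m A E F hEt hinv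
  have hL : IsML fun y => F 0 y ^ 2 / 2 := (hML (m + 1) F hF 0).1
  have hSZ : SZ B fun y => F 0 y ^ 2 / 2 :=
    hSPD m B E F hE hF hFE fun y hy => hS 0 y hy
  have hAcc : Acc B fun y => F 0 y ^ 2 / 2 :=
    hRW m B E F hE hF hFE fun y hy _ => hRic 0 y hy
  obtain ⟨d, hd⟩ := hALL m B E _ hm hL hE hAcc hSZ
  obtain ⟨Q, hQ⟩ := hDEI (m + 1) _ d (by omega) hL hd
  have hmat : ∀ x : V (m + 1), ∃ M : Matrix (Fin (m + 1)) (Fin (m + 1)) ℝ,
      ∀ y, E (-x 0) y = M *ᵥ y := by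
    intro x
    refine ⟨LinearMap.toMatrix' (E (-x 0) : V (m + 1) →ₗ[ℝ] V (m + 1)), fun y => ?_⟩
    rw [← Matrix.toLin'_apply, Matrix.toLin'_toMatrix']
    rfl
  choose M hM using hmat
  refine ⟨fun x => (M x)ᵀ * Q * M x, fun x _ y => ?_⟩
  have h1 : F x y ^ 2 = y ⬝ᵥ (((M x)ᵀ * Q * M x) *ᵥ y) := by
    rw [hFE x y]
    have h2 := hQ (E (-x 0) y)
    have h3 : F 0 (E (-x 0) y) ^ 2 = E (-x 0) y ⬝ᵥ (Q *ᵥ E (-x 0) y) := by linarith
    rw [h3, hM x y, Matrix.mul_assoc, ← Matrix.mulVec_mulVec, ← Matrix.mulVec_mulVec,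
      Matrix.dotProduct_mulVec y, Matrix.vecMul_transpose]
  rw [← h1, Real.sqrt_sq (hF.nonneg x (Set.mem_univ x) y)]

end Pool.Agent.H66.FA
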