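import Pool.Agent.H63.Fins.Defs

/-!
# Left-invariant Finsler metrics on almost abelian groups: the statement

The Finsler-geometric notions are those of `Pool.Agent.H63.Fins.Defs`.
-/

set_option autoImplicit false

open Matrix

namespace Pool.Agent.H66.FA

open Pool.Agent.H63.Fins

/-- The product of the group `ℝ ⋉_A ℝᵐ` (the manifold `ℝ¹⁺ᵐ`, first coordinate number `0`):
`(s, a) (x₀, x') = (s + x₀, a + exp (s A) x')`. -/
noncomputable def mul {m : ℕ} (A : Matrix (Fin m) (Fin m) ℝ) (g x : V (m + 1)) : V (m + 1) :=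
  Fin.cons (g 0 + x 0) (Fin.tail g + NormedSpace.exp (g 0 • A) *ᵥ Fin.tail x)

/-- `F` is invariant under the left translations `x ↦ g x` of the group `ℝ ⋉_A ℝᵐ`. -/
def IsLeftInvariant {m : ℕ} (A : Matrix (Fin m) (Fin m) ℝ) (F : V (m + 1) → V (m + 1) → ℝ) : Prop :=
  ∀ g x y : V (m + 1), F (mul A g x) (fderiv ℝ (mul A g) x y) = F x y

/-- All solutions of `u' = -A u` tend to zero, that is, all eigenvalues of `A` have positive real
part. -/
def Expanding {m : ℕ} (A : Matrix (Fin m) (Fin m) ℝ) : Prop :=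
  ∀ v : Fin m → ℝ, Filter.Tendsto (fun t : ℝ => NormedSpace.exp (-t • A) *ᵥ v) Filter.atTop (nhds 0)

end Pool.Agent.H66.FA
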