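import Pool.Agent.H66.FA.Defs

/-!
# Left-invariant Finsler metrics on almost abelian groups: module targets
-/

set_option autoImplicit false

open Matrix

namespace Pool.Agent.H66.FA

open Pool.Agent.H63.Fins MeasureTheory Filter Topology

/-! ## Part A: Minkowski norms -/

/-- EUL: Euler relations. -/
def T_EUL : Prop := ∀ (n : ℕ) (L : V n → ℝ), IsML L → ∀ y : V n, y ≠ 0 →
  d1 L y y = 2 * L y ∧ (∀ u, d2 L y y u = d1 L y u) ∧ (∀ u v, d2 L y u v = d2 L y v u) ∧ 0 < L y ∧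
  ∀ c : ℝ, 0 < c → (∀ u, d1 L (c • y) u = c * d1 L y u) ∧
    (∀ u v, d2 L (c • y) u v = d2 L y u v) ∧ DD L (c • y) = DD L y

/-- REG: regularity. -/
def T_REG : Prop := ∀ (n : ℕ) (L : V n → ℝ), IsML L → Continuous L ∧
  ContinuousOn (fun p : V n × V n => d1 L p.1 p.2) {p | p.1 ≠ 0} ∧
  (∀ u, ContDiffOn ℝ (⊤ : ℕ∞) (fun y => d1 L y u) {y | y ≠ 0}) ∧
  (∀ u v, ContDiffOn ℝ (⊤ : ℕ∞) (fun y => d2 L y u v) {y | y ≠ 0}) ∧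
  ContDiffOn ℝ (⊤ : ℕ∞) (DD L) {y | y ≠ 0} ∧
  (∀ i j, ContDiffOn ℝ (⊤ : ℕ∞) (gi L i j) {y | y ≠ 0}) ∧
  ∀ y, y ≠ 0 → HasFDerivAt L (fderiv ℝ L y) y ∧
    (∀ u ξ, fderiv ℝ (fun y => d1 L y u) y ξ = d2 L y ξ u) ∧ (gm L y).PosDef ∧ 0 < DD L y ∧
    ∀ u v, d2 L y u v = u ⬝ᵥ (gm L y *ᵥ v)

/-- CPT: the level sets are compact. -/
def T_CPT : Prop := ∀ (n : ℕ) (L : V n → ℝ), IsML L →
  (∃ a : ℝ, 0 < a ∧ ∀ y, a * ‖y‖ ^ 2 ≤ L y) ∧ ∀ c : ℝ, 0 < c → IsCompact {y | L y = c}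

/-- CVX: convexity. -/
def T_CVX : Prop := ∀ (n : ℕ) (L : V n → ℝ), IsML L → ∀ y w : V n, y ≠ 0 →
  d1 L y w ≤ L y + L w

/-- INJ: the vertical direction is unique. -/
def T_INJ : Prop := ∀ (m : ℕ) (L : V (m + 1) → ℝ), IsML L → ∀ y z : V (m + 1), 0 < y 0 → 0 < z 0 →
  (∀ u : V (m + 1), u 0 = 0 → d1 L y u = 0) → (∀ u : V (m + 1), u 0 = 0 → d1 L z u = 0) →
  ∃ c : ℝ, 0 < c ∧ z = c • y

/-! ## Part B: trajectories -/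

/-- XIS: the vector field. -/
def T_XIS : Prop := ∀ (m : ℕ) (B : V (m + 1) →L[ℝ] V (m + 1)) (L : V (m + 1) → ℝ), IsML L →
  ∃ ξ : V (m + 1) → V (m + 1), ContDiffOn ℝ (⊤ : ℕ∞) ξ {y | y ≠ 0} ∧ ∀ y, y ≠ 0 →
    (∀ u, d2 L y (ξ y) u = u 0 * d1 L y (B y) - y 0 * d1 L y (B u)) ∧ d1 L y (ξ y) = 0

/-- ODE: existence of trajectories. -/
def T_ODE : Prop := ∀ (n : ℕ) (L : V n → ℝ) (ξ : V n → V n), IsML L →
  ContDiffOn ℝ (⊤ : ℕ∞) ξ {y | y ≠ 0} → (∀ y, y ≠ 0 → d1 L y (ξ y) = 0) →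
  ∀ y : V n, y ≠ 0 → ∀ T : ℝ, 0 < T → ∃ γ : ℝ → V n, γ 0 = y ∧
    ∀ t ∈ Set.Ioo (-1 : ℝ) T, γ t ≠ 0 ∧ HasDerivAt γ (ξ (γ t)) t

/-- MOM: the conserved quantities. -/
def T_MOM : Prop := ∀ (m : ℕ) (B : V (m + 1) →L[ℝ] V (m + 1))
  (E : ℝ → V (m + 1) →L[ℝ] V (m + 1)) (L : V (m + 1) → ℝ), IsML L → IsE B E →
  ∀ (γ : ℝ → V (m + 1)) (T : ℝ), IsTr B L γ T → ∀ t ∈ Set.Ico (0 : ℝ) T,
    L (γ t) = L (γ 0) ∧
    (∀ u : V (m + 1), u 0 = 0 → d1 L (γ t) u = d1 L (γ 0) (E (-∫ s in (0 : ℝ)..t, γ s 0) u)) ∧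
    (SZ B L → DD L (γ t) = DD L (γ 0))

/-- DEC: growth along the orbits. -/
def T_DEC : Prop := ∀ (m : ℕ) (B : V (m + 1) →L[ℝ] V (m + 1))
  (E : ℝ → V (m + 1) →L[ℝ] V (m + 1)) (L : V (m + 1) → ℝ), IsML L → IsE B E → Acc B L →
  ∀ v : V (m + 1), v ≠ 0 → v 0 = 0 → ∀ s t : ℝ, s < t → L (E s v) < L (E t v)

/-- GAP: compactness. -/
def T_GAP : Prop := ∀ (m : ℕ) (B : V (m + 1) →L[ℝ] V (m + 1))
  (E : ℝ → V (m + 1) →L[ℝ] V (m + 1)) (L : V (m + 1) → ℝ), IsML L → IsE B E → Acc B L →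
  ∀ c σ₁ : ℝ, 0 < c → 0 < σ₁ → ∃ κ δ : ℝ, κ < c ∧ 0 < δ ∧
    (∀ v : V (m + 1), v 0 = 0 → L v = c → ∀ σ, σ₁ ≤ σ → L (E (-σ) v) ≤ κ) ∧
    ∀ y : V (m + 1), L y = c → 0 ≤ y 0 → y 0 < δ → ∃ v : V (m + 1), v 0 = 0 ∧ L v = c ∧
      c + κ < d1 L y v

/-- POS: the first coordinate stays positive. -/
def T_POS : Prop := ∀ (m : ℕ) (B : V (m + 1) →L[ℝ] V (m + 1))
  (E : ℝ → V (m + 1) →L[ℝ] V (m + 1)) (L : V (m + 1) → ℝ), IsML L → IsE B E → Acc B L →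
  ∀ (γ : ℝ → V (m + 1)) (T : ℝ), IsTr B L γ T → 0 < γ 0 0 → ∀ t ∈ Set.Ico (0 : ℝ) T, 0 < γ t 0

/-- STA: the first coordinate stays positive for some time. -/
def T_STA : Prop := ∀ (m : ℕ) (B : V (m + 1) →L[ℝ] V (m + 1))
  (E : ℝ → V (m + 1) →L[ℝ] V (m + 1)) (L : V (m + 1) → ℝ), IsML L → IsE B E →
  ∀ y : V (m + 1), 0 < y 0 → ∃ t₁ σ₁ : ℝ, 0 < t₁ ∧ 0 < σ₁ ∧ ∀ (γ : ℝ → V (m + 1)) (T : ℝ),
    IsTr B L γ T → γ 0 = y → t₁ < T → σ₁ ≤ ∫ s in (0 : ℝ)..t₁, γ s 0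

/-- LOW: a lower bound for the first coordinate. -/
def T_LOW : Prop := ∀ (m : ℕ) (B : V (m + 1) →L[ℝ] V (m + 1))
  (E : ℝ → V (m + 1) →L[ℝ] V (m + 1)) (L : V (m + 1) → ℝ), IsML L → IsE B E → Acc B L →
  ∀ y : V (m + 1), 0 < y 0 → ∃ δ t₁ : ℝ, 0 < δ ∧ 0 < t₁ ∧ ∀ (γ : ℝ → V (m + 1)) (T : ℝ),
    IsTr B L γ T → γ 0 = y → ∀ t ∈ Set.Ico (0 : ℝ) T, 0 < γ t 0 ∧ (t₁ ≤ t → δ ≤ γ t 0)

/-- LIM: the limit of a trajectory. -/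
def T_LIM : Prop := ∀ (m : ℕ) (B : V (m + 1) →L[ℝ] V (m + 1))
  (E : ℝ → V (m + 1) →L[ℝ] V (m + 1)) (L : V (m + 1) → ℝ), IsML L → IsE B E → Acc B L → SZ B L →
  ∀ y : V (m + 1), 0 < y 0 → ∃ z : V (m + 1), 0 < z 0 ∧
    (∀ u : V (m + 1), u 0 = 0 → d1 L z u = 0) ∧ DD L z = DD L y

/-- CON: the determinant is constant on a half space. -/
def T_CON : Prop := ∀ (m : ℕ) (B : V (m + 1) →L[ℝ] V (m + 1))
  (E : ℝ → V (m + 1) →L[ℝ] V (m + 1)) (L : V (m + 1) → ℝ), IsML L → IsE B E → Acc B L → SZ B L →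
  ∃ d : ℝ, ∀ y : V (m + 1), 0 < y 0 → DD L y = d

/-- RFL: reflection. -/
def T_RFL : Prop := ∀ (m : ℕ) (B : V (m + 1) →L[ℝ] V (m + 1))
  (E : ℝ → V (m + 1) →L[ℝ] V (m + 1)) (L : V (m + 1) → ℝ), IsML L → IsE B E →
  IsML (fun y => L (rf y)) ∧ (Acc B L → Acc B fun y => L (rf y)) ∧
  (SZ B L → SZ B fun y => L (rf y)) ∧ ∀ y, y ≠ 0 → DD (fun y => L (rf y)) y = DD L (rf y)

/-- ALL: the determinant is constant. -/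
def T_ALL : Prop := ∀ (m : ℕ) (B : V (m + 1) →L[ℝ] V (m + 1))
  (E : ℝ → V (m + 1) →L[ℝ] V (m + 1)) (L : V (m + 1) → ℝ), 0 < m → IsML L → IsE B E → Acc B L →
  SZ B L → ∃ d : ℝ, ∀ y : V (m + 1), y ≠ 0 → DD L y = d

/-- ACC: growth of the norm from the sign of the second derivative. -/
def T_ACC : Prop := ∀ (m : ℕ) (B : V (m + 1) →L[ℝ] V (m + 1))
  (E : ℝ → V (m + 1) →L[ℝ] V (m + 1)) (L : V (m + 1) → ℝ), IsML L → IsE B E →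
  (∀ v : V (m + 1), v ≠ 0 → v 0 = 0 → d1 L v (B v) = 0 →
    0 < deriv (deriv fun t => L (E t v)) 0) → Acc B L

/-! ## Part C: the theorem of Deicke -/

/-- JAC: the derivative of a determinant. -/
def T_JAC : Prop := ∀ (n : ℕ) (M : ℝ → Matrix (Fin n) (Fin n) ℝ) (M' : Matrix (Fin n) (Fin n) ℝ)
  (t : ℝ), (∀ i j, HasDerivAt (fun s => M s i j) (M' i j) t) → (M t).det ≠ 0 →
  HasDerivAt (fun s => (M s).det) ((M t).det * ((M t)⁻¹ * M').trace) t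

/-- INV: the derivative of an inverse matrix. -/
def T_INV : Prop := ∀ (n : ℕ) (M : ℝ → Matrix (Fin n) (Fin n) ℝ) (M' : Matrix (Fin n) (Fin n) ℝ)
  (t : ℝ), (∀ i j, HasDerivAt (fun s => M s i j) (M' i j) t) → (M t).det ≠ 0 →
  ∀ i j, HasDerivAt (fun s => (M s)⁻¹ i j) (-((M t)⁻¹ * M' * (M t)⁻¹) i j) t

/-- SYM: the third derivative is symmetric. -/
def T_SYM : Prop := ∀ (n : ℕ) (L : V n → ℝ), IsML L → ∀ y : V n, y ≠ 0 → ∀ u v w : V n,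
  fderiv ℝ (fun z => d2 L z u v) y w = fderiv ℝ (fun z => d2 L z w v) y u

/-- TRC: the trace of the third derivative. -/
def T_TRC : Prop := ∀ (n : ℕ) (L : V n → ℝ) (d : ℝ), IsML L → (∀ y, y ≠ 0 → DD L y = d) →
  ∀ y v : V n, y ≠ 0 → ∑ i, ∑ j, gi L i j y * fderiv ℝ (fun z => gm L z i j) y v = 0

/-- DIV: the inverse matrix is free of divergence. -/
def T_DIV : Prop := ∀ (n : ℕ) (L : V n → ℝ) (d : ℝ), IsML L → (∀ y, y ≠ 0 → DD L y = d) →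
  ∀ (y : V n) (j : Fin n), y ≠ 0 → ∑ i, fderiv ℝ (gi L i j) y (ee i) = 0

/-- SUB: `D²L(y)(v,v)` is a subsolution. -/
def T_SUB : Prop := ∀ (n : ℕ) (L : V n → ℝ) (d : ℝ), IsML L → (∀ y, y ≠ 0 → DD L y = d) →
  ∀ y v : V n, y ≠ 0 → 0 ≤ ∑ i, ∑ j, gi L i j y * hh L v i j y ∧
    (∑ i, ∑ j, gi L i j y * hh L v i j y = 0 → ∀ i j, fderiv ℝ (fun z => gm L z i j) y v = 0)

/-- INT: integration by parts. -/
def T_INT : Prop := ∀ (n : ℕ) (L : V n → ℝ) (d : ℝ), IsML L → (∀ y, y ≠ 0 → DD L y = d) →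
  ∀ (v : V n) (φ : ℝ → ℝ), ContDiff ℝ (⊤ : ℕ∞) φ → HasCompactSupport φ →
  tsupport φ ⊆ Set.Ioi 0 →
  ∫ y : V n, φ (L y) * ∑ i, ∑ j, gi L i j y * hh L v i j y = 0

/-- DEI: the theorem of Deicke. -/
def T_DEI : Prop := ∀ (n : ℕ) (L : V n → ℝ) (d : ℝ), 2 ≤ n → IsML L → (∀ y, y ≠ 0 → DD L y = d) →
  ∃ Q : Matrix (Fin n) (Fin n) ℝ, ∀ y, L y = y ⬝ᵥ (Q *ᵥ y) / 2

/-! ## Part D: the Ricci scalar -/

/-- PDF: partial derivatives. -/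
def T_PDF : Prop := ∀ (n : ℕ) (i : Fin n) (H : V n → V n → ℝ) (x y : V n),
  (DifferentiableAt ℝ (fun x => H x y) x → pdx i H x y = fderiv ℝ (fun x => H x y) x (ee i)) ∧
  (DifferentiableAt ℝ (fun y => H x y) y → pdy i H x y = fderiv ℝ (fun y => H x y) y (ee i))

/-- RA: the spray. -/
def T_RA : Prop := ∀ (m : ℕ) (F : V (m + 1) → V (m + 1) → ℝ) (Λ : ℝ → V (m + 1) → ℝ), IsR F Λ →
  ∀ (x y : V (m + 1)) (i : Fin (m + 1)), y ≠ 0 → spray F x y i =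
    1 / 2 * ∑ l, (fund F x y)⁻¹ i l * (y 0 * pdx 0 (pdy l fun x y => Λ (x 0) y) x y -
      if l = 0 then pdx 0 (fun x y => Λ (x 0) y) x y else 0)

/-- RB: the derivative of the spray in the position. -/
def T_RB : Prop := ∀ (m : ℕ) (F : V (m + 1) → V (m + 1) → ℝ) (Λ : ℝ → V (m + 1) → ℝ), IsR F Λ →
  ∀ v : V (m + 1), v ≠ 0 → v 0 = 0 → deriv (fun s => Λ s v) 0 = 0 →
  pdx 0 (fun x y => spray F x y 0) 0 v =
    -(1 / 2 * (fund F 0 v)⁻¹ 0 0 * deriv (deriv fun s => Λ s v) 0)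

/-- RC: the derivatives of the spray in the direction. -/
def T_RC : Prop := ∀ (m : ℕ) (F : V (m + 1) → V (m + 1) → ℝ) (Λ : ℝ → V (m + 1) → ℝ), IsR F Λ →
  ∀ v : V (m + 1), v ≠ 0 → v 0 = 0 → deriv (fun s => Λ s v) 0 = 0 → ∀ j k : Fin (m + 1),
  pdy j (fun x y => spray F x y k) 0 v =
    1 / 2 * ((if j = 0 then ∑ l, (fund F 0 v)⁻¹ k l * ta Λ v l else 0) -
      (fund F 0 v)⁻¹ k 0 * ta Λ v j)

/-- RD: the trace of the Riemann curvature. -/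
def T_RD : Prop := ∀ (m : ℕ) (F : V (m + 1) → V (m + 1) → ℝ) (Λ : ℝ → V (m + 1) → ℝ), IsR F Λ →
  ∀ v : V (m + 1), v ≠ 0 → v 0 = 0 → deriv (fun s => Λ s v) 0 = 0 →
  ricci F 0 v = 2 * pdx 0 (fun x y => spray F x y 0) 0 v -
    ∑ j, ∑ k, pdy j (fun x y => spray F x y k) 0 v * pdy k (fun x y => spray F x y j) 0 v

/-- RCS: the inequality of Cauchy and Schwarz. -/
def T_RCS : Prop := ∀ (m : ℕ) (G : Matrix (Fin (m + 1)) (Fin (m + 1)) ℝ) (τ : V (m + 1)),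
  G.PosDef → 0 < G 0 0 ∧
  ∑ j, ∑ k, 1 / 2 * ((if j = 0 then ∑ l, G k l * τ l else 0) - G k 0 * τ j) *
    (1 / 2 * ((if k = 0 then ∑ l, G j l * τ l else 0) - G j 0 * τ k)) ≤ 0

/-- RIC: the sign of the second derivative. -/
def T_RIC : Prop := ∀ (m : ℕ) (F : V (m + 1) → V (m + 1) → ℝ) (Λ : ℝ → V (m + 1) → ℝ), IsR F Λ →
  ∀ v : V (m + 1), v ≠ 0 → v 0 = 0 → deriv (fun s => Λ s v) 0 = 0 → ricci F 0 v < 0 →
  0 < deriv (deriv fun s => Λ s v) 0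

/-! ## Part E: left-invariant metrics -/

/-- ML: the norm at a point. -/
def T_ML : Prop := ∀ (n : ℕ) (F : V n → V n → ℝ), IsFinsler Set.univ F → ∀ x : V n,
  IsML (fun y => F x y ^ 2 / 2) ∧ ∀ y, y ≠ 0 → fund F x y = gm (fun y => F x y ^ 2 / 2) y

/-- EXP: the one-parameter group. -/
def T_EXP : Prop := ∀ (m : ℕ) (A : Matrix (Fin m) (Fin m) ℝ), Expanding A →
  ∃ (B : V (m + 1) →L[ℝ] V (m + 1)) (E : ℝ → V (m + 1) →L[ℝ] V (m + 1)), IsE B E ∧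
    ∀ t y, E t y = Fin.cons (y 0) (NormedSpace.exp (t • A) *ᵥ Fin.tail y)

/-- LIN: left-invariant metrics. -/
def T_LIN : Prop := ∀ (m : ℕ) (A : Matrix (Fin m) (Fin m) ℝ)
  (E : ℝ → V (m + 1) →L[ℝ] V (m + 1)) (F : V (m + 1) → V (m + 1) → ℝ),
  (∀ t y, E t y = Fin.cons (y 0) (NormedSpace.exp (t • A) *ᵥ Fin.tail y)) →
  IsLeftInvariant A F → ∀ x y, F x y = F 0 (E (-x 0) y)

/-- ISR: the norm depends only on the first coordinate. -/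
def T_ISR : Prop := ∀ (m : ℕ) (B : V (m + 1) →L[ℝ] V (m + 1))
  (E : ℝ → V (m + 1) →L[ℝ] V (m + 1)) (F : V (m + 1) → V (m + 1) → ℝ), IsE B E →
  IsFinsler Set.univ F → (∀ x y, F x y = F 0 (E (-x 0) y)) →
  IsR F (fun s y => F 0 (E (-s) y) ^ 2 / 2) ∧
  ∀ x y, y ≠ 0 → DD (fun y => F x y ^ 2 / 2) y =
    (E (-x 0)).det ^ 2 * DD (fun y => F 0 y ^ 2 / 2) (E (-x 0) y) ∧ 0 < (E (-x 0)).det

/-- VOL: the Busemann-Hausdorff density. -/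
def T_VOL : Prop := ∀ (m : ℕ) (B : V (m + 1) →L[ℝ] V (m + 1))
  (E : ℝ → V (m + 1) →L[ℝ] V (m + 1)) (F : V (m + 1) → V (m + 1) → ℝ), IsE B E →
  IsFinsler Set.univ F → (∀ x y, F x y = F 0 (E (-x 0) y)) →
  0 < sigmaBH F 0 ∧ ∀ x, sigmaBH F x = sigmaBH F 0 * |(E (-x 0)).det|

/-- DST: the distortion. -/
def T_DST : Prop := ∀ (m : ℕ) (B : V (m + 1) →L[ℝ] V (m + 1))
  (E : ℝ → V (m + 1) →L[ℝ] V (m + 1)) (F : V (m + 1) → V (m + 1) → ℝ), IsE B E →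
  IsFinsler Set.univ F → (∀ x y, F x y = F 0 (E (-x 0) y)) →
  ∃ κ : ℝ, ∀ x y, y ≠ 0 → distortion F x y =
    Real.log (DD (fun y => F 0 y ^ 2 / 2) (E (-x 0) y)) / 2 + κ

/-- SPR: the spray at the origin. -/
def T_SPR : Prop := ∀ (m : ℕ) (B : V (m + 1) →L[ℝ] V (m + 1))
  (E : ℝ → V (m + 1) →L[ℝ] V (m + 1)) (F : V (m + 1) → V (m + 1) → ℝ), IsE B E →
  IsFinsler Set.univ F → (∀ x y, F x y = F 0 (E (-x 0) y)) →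
  ∀ y u : V (m + 1), y ≠ 0 → d2 (fun y => F 0 y ^ 2 / 2) y (fun i => 2 * spray F 0 y i) u =
    -(y 0 * (d2 (fun y => F 0 y ^ 2 / 2) y u (B y) + d1 (fun y => F 0 y ^ 2 / 2) y (B u))) +
      u 0 * d1 (fun y => F 0 y ^ 2 / 2) y (B y)

/-- SPD: vanishing S-curvature. -/
def T_SPD : Prop := ∀ (m : ℕ) (B : V (m + 1) →L[ℝ] V (m + 1))
  (E : ℝ → V (m + 1) →L[ℝ] V (m + 1)) (F : V (m + 1) → V (m + 1) → ℝ), IsE B E →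
  IsFinsler Set.univ F → (∀ x y, F x y = F 0 (E (-x 0) y)) →
  (∀ y, y ≠ 0 → HasSCurvature Set.univ F 0 y 0) → SZ B fun y => F 0 y ^ 2 / 2

/-- RW: negative Ricci scalar. -/
def T_RW : Prop := ∀ (m : ℕ) (B : V (m + 1) →L[ℝ] V (m + 1))
  (E : ℝ → V (m + 1) →L[ℝ] V (m + 1)) (F : V (m + 1) → V (m + 1) → ℝ), IsE B E →
  IsFinsler Set.univ F → (∀ x y, F x y = F 0 (E (-x 0) y)) →
  (∀ y : V (m + 1), y ≠ 0 → y 0 = 0 → ricci F 0 y < 0) → Acc B fun y => F 0 y ^ 2 / 2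

/-- FIN: the theorem. -/
def T_FIN : Prop := ∀ (m : ℕ) (A : Matrix (Fin m) (Fin m) ℝ) (F : V (m + 1) → V (m + 1) → ℝ),
  0 < m → Expanding A → IsFinsler Set.univ F → IsLeftInvariant A F →
  (∀ x y, y ≠ 0 → ricci F x y < 0) → (∀ x y, y ≠ 0 → HasSCurvature Set.univ F x y 0) →
  IsRiemannian Set.univ F

end Pool.Agent.H66.FA
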